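import Mathlib

set_option autoImplicit false

open Finset

namespace Pool.Agent.Results.MP_c6938d_co.Yes

/-- a `(v,k,2)` covering design with `d` blocks -/
def Cov (d v k : ℕ) (B : Fin d → Finset (Fin v)) : Prop :=
  (∀ i, (B i).card = k) ∧ ∀ x y, x ≠ y → ∃ i, x ∈ B i ∧ y ∈ B i

section
variable {ι : Type} [DecidableEq ι]

/-- fractional designs with blocks in `M`, block sizes at most 1, mass `r`, degrees at most `t` -/
def P (M : Finset ι) (r : ℚ) (t : ℕ) : Prop :=
  ∃ (X : Type) (_ : Fintype X) (τ : X → Finset ι) (w : X → ℚ), (∀ x, 0 ≤ w x) ∧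
    (∀ x, τ x ⊆ M ∧ (τ x).card ≤ t) ∧ (∀ x y, ∃ i ∈ τ x, i ∈ τ y) ∧ ∑ x, w x = r ∧
    ∀ i, ∑ x, (if i ∈ τ x then w x else 0) ≤ 1

theorem P.mono {M N : Finset ι} {r : ℚ} {t : ℕ} (h : P M r t) (e : M ⊆ N) : P N r t := by
  obtain ⟨X, _, τ, w, a, b, c⟩ := h
  exact ⟨X, _, τ, w, a, fun x => ⟨(b x).1.trans e, (b x).2⟩, c⟩

theorem step {M C : Finset ι} {r : ℚ} {t : ℕ} (h : P M r t) (hd : Disjoint M C)
    (c0 : 0 < C.card) (c1 : C.card ≤ t + 1) (c2 : r ≤ C.card) :
    P (M ∪ C) (r + 1 - r / C.card) (t + 1) := by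
  obtain ⟨X, _, τ, w, a, b, c, rfl, e⟩ := h
  have c3 : (0 : ℚ) < C.card := by exact_mod_cast c0
  refine ⟨Option (X × C), inferInstance, fun o => o.elim C fun p => insert p.2.1 (τ p.1),
    fun o => o.elim (1 - (∑ x, w x) / C.card) fun p => w p.1 / C.card, ?_, ?_, ?_, ?_, ?_⟩
  · rintro (_ | p)
    · simpa [div_le_one c3] using c2
    · exact div_nonneg (a _) c3.le
  · rintro (_ | p)
    · exact ⟨subset_union_right, c1⟩
    · exact ⟨insert_subset (mem_union_right _ p.2.2) ((b _).1.trans subset_union_left),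
        (card_insert_le _ _).trans (by have := (b p.1).2; omega)⟩
  · rintro (_ | p) (_ | q)
    · obtain ⟨i, hi⟩ := card_pos.1 c0
      exact ⟨i, hi, hi⟩
    · exact ⟨q.2.1, q.2.2, by simp⟩
    · exact ⟨p.2.1, by simp, p.2.2⟩
    · obtain ⟨i, h1, h2⟩ := c p.1 q.1
      exact ⟨i, by simp [h1], by simp [h2]⟩
  · simp only [Fintype.sum_option, Option.elim, Fintype.sum_prod_type, sum_const, card_univ,
      Fintype.card_coe, nsmul_eq_mul, mul_div_cancel₀ _ c3.ne']
    ring
  · intro i
    simp only [Fintype.sum_option, Option.elim, Fintype.sum_prod_type, mem_insert]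
    by_cases hi : i ∈ C
    · have : ∀ x, i ∉ τ x := fun x hx => disjoint_left.1 hd ((b x).1 hx) hi
      have h2 : ∀ j : C, i = j.1 ↔ ⟨i, hi⟩ = j := fun j => by simp [Subtype.ext_iff]
      simp [hi, this, h2, ← sum_div]
    · have h2 : ∀ j : C, ¬i = j.1 := fun j e => hi (e ▸ j.2)
      simp only [hi, h2, false_or, sum_const, card_univ, Fintype.card_coe, nsmul_eq_mul, if_false,
        zero_add, mul_ite, mul_zero, mul_div_cancel₀ _ c3.ne']
      exact e i

theorem pairs (n : ℕ) : ∀ M : Finset ι, M.card = (n + 2).choose 2 → P M ((n + 2) / 2) (n + 1) := by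
  induction n with
  | zero =>
    intro M h
    obtain ⟨i, rfl⟩ := card_eq_one.1 h
    refine ⟨Unit, inferInstance, fun _ => {i}, fun _ => 1, by simp, by simp, by simp, by simp,
      fun j => ?_⟩
    simp only [univ_unique, sum_const, card_singleton, one_smul]
    split_ifs <;> simp
  | succ n ih =>
    intro M h
    replace h : M.card = n + 2 + (n + 2).choose 2 := by
      rw [h, Nat.choose_succ_succ' (n + 2), Nat.choose_one_right]
    obtain ⟨C, hC, e⟩ := exists_subset_card_eq (s := M) (n := n + 2) (by omega)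
    have := step (ih (M \ C) (by rw [card_sdiff_of_subset hC]; omega)) sdiff_disjoint
      (by omega) (by omega) (by rw [e]; push_cast; linarith [(n.cast_nonneg : (0 : ℚ) ≤ n)])
    rw [sdiff_union_of_subset hC, e] at this
    convert this using 1
    push_cast
    field_simp
    ring

theorem small (M : Finset ι) {r : ℚ} (h1 : 1 ≤ r) (h : 2 * r ^ 2 < M.card) :
    ∃ (s : ℚ) (t : ℕ), r < s ∧ (t : ℚ) ≤ 2 * r ∧ P M s t := by
  obtain ⟨n, hn⟩ : ∃ n, ⌊2 * r⌋₊ = n + 2 :=
    ⟨⌊2 * r⌋₊ - 2, by have : 2 ≤ ⌊2 * r⌋₊ := Nat.le_floor (by push_cast; linarith); omega⟩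
  have a1 := Nat.floor_le (show 0 ≤ 2 * r by linarith)
  have a2 := Nat.lt_floor_add_one (2 * r)
  rw [hn] at a1 a2
  push_cast at a1 a2
  have a3 : (((n + 2).choose 2 : ℕ) : ℚ) = (n + 2) * (n + 1) / 2 := by
    rw [Nat.cast_choose_two]; push_cast; ring
  have n0 : (0 : ℚ) ≤ n := n.cast_nonneg
  have a4 : (n + 2).choose 2 < M.card := by
    have : (((n + 2).choose 2 : ℕ) : ℚ) < M.card := by nlinarith
    exact_mod_cast this
  obtain ⟨N, hN, e⟩ := exists_subset_card_eq a4.le
  obtain ⟨C, hC, f⟩ := exists_subset_card_eq (s := M \ N)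
    (n := min (M.card - (n + 2).choose 2) (n + 2)) (by rw [card_sdiff_of_subset hN]; omega)
  have c0 : (0 : ℚ) < C.card := by exact_mod_cast (by omega : 0 < C.card)
  have key : ((n : ℚ) + 2) / 2 < C.card * (1 - (r - (n + 2) / 2)) := by
    rcases le_total (M.card - (n + 2).choose 2) (n + 2) with g | g
    · rw [f, min_eq_left g, Nat.cast_sub a4.le, a3]
      obtain ⟨δ, rfl⟩ : ∃ δ, r = (n + 2) / 2 + δ := ⟨r - (n + 2) / 2, by ring⟩
      have d0 : 0 ≤ δ := by linarith
      have d1 : 0 < 1 / 2 - δ := by linarith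
      have : ((n : ℚ) + 2) / 2 + 2 * (n + 2) * δ < M.card - (n + 2) * (n + 1) / 2 := by nlinarith
      have := mul_lt_mul_of_pos_right this (show 0 < 1 - δ by linarith)
      nlinarith [mul_nonneg (mul_nonneg d0 d1.le) n0, mul_nonneg d0 d1.le, mul_nonneg d0 n0]
    · rw [f, min_eq_right g]
      push_cast
      nlinarith
  refine ⟨_, n + 2, ?_, by push_cast; linarith, (step (pairs n N e)
    (disjoint_of_subset_right hC disjoint_sdiff) (by omega) (by omega) (by nlinarith)).mono
    (union_subset hN (hC.trans sdiff_subset))⟩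
  have := (div_lt_iff₀' c0).2 key
  linarith

variable [Fintype ι]

/-- integer solutions supported on a family `F` of types, with slack variables -/
def S (F : Finset (Finset ι)) : AddSubmonoid (Option (Finset ι ⊕ ι) → ℕ) where
  carrier := {z | (∀ T, T ∉ F → z (some (.inl T)) = 0) ∧
    ∀ i, ∑ T, (if i ∈ T then z (some (.inl T)) else 0) + z (some (.inr i)) = z none}
  zero_mem' := by simp
  add_mem' := by
    rintro a b ⟨a1, a2⟩ ⟨b1, b2⟩
    refine ⟨fun T h => by simp [a1 T h, b1 T h], fun i => ?_⟩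
    simp only [Pi.add_apply, ite_add_zero, sum_add_distrib, ← a2 i, ← b2 i]
    ring

theorem S_fg (F : Finset (Finset ι)) : (S F).FG := by
  refine AddSubmonoid.fg_of_subtractive ?_
  rintro a ⟨a1, a2⟩ b ⟨b1, b2⟩
  refine ⟨fun T h => by simpa [a1 T h] using b1 T h, fun i => ?_⟩
  have := b2 i
  simp only [Pi.add_apply, ite_add_zero, sum_add_distrib, ← a2 i] at this
  omega

def Int (F : Finset (Finset ι)) : Prop := ∀ T ∈ F, ∀ U ∈ F, ∃ i ∈ T, i ∈ U

theorem zero_of {F : Finset (Finset ι)} (hF : Int F) {z : Option (Finset ι ⊕ ι) → ℕ} (hz : z ∈ S F)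
    (h : z none = 0) (T : Finset ι) : z (some (.inl T)) = 0 := by
  by_cases e : T ∈ F
  · obtain ⟨i, hi, -⟩ := hF T e T e
    have := hz.2 i
    have h2 := single_le_sum (f := fun T => if i ∈ T then z (some (.inl T)) else 0)
      (fun _ _ => Nat.zero_le _) (mem_univ T)
    simp only [hi, if_true] at h2
    omega
  · exact hz.1 T e

theorem bound : ∃ F : Finset (Finset ι), Int F ∧ ∃ z ∈ S F, ∀ r t, P (univ : Finset ι) r t →
    r ≤ (∑ T : Finset ι, z (some (.inl T)) : ℕ) / z none := by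
  choose G hG using S_fg (ι := ι)
  classical
  obtain ⟨⟨F, z⟩, h1, h2⟩ := exists_max_image
    (((univ.filter (Int (ι := ι))).sigma fun F => insert 0 (G F)))
    (fun p => ((∑ T : Finset ι, p.2 (some (.inl T)) : ℕ) : ℚ) / p.2 none) ⟨⟨∅, 0⟩, by simp [Int]⟩
  simp only [mem_sigma, mem_filter, mem_univ, true_and, mem_insert] at h1 h2
  refine ⟨F, h1.1, z, h1.2.elim (fun e => e ▸ zero_mem _)
    fun e => hG F ▸ AddSubmonoid.subset_closure e, ?_⟩
  generalize ((∑ T, z (some (.inl T)) : ℕ) : ℚ) / z none = ρ at h2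
  have key : ∀ F : Finset (Finset ι), Int F → ∀ y ∈ S F,
      ((∑ T, y (some (.inl T)) : ℕ) : ℚ) ≤ ρ * y none := by
    intro F hF y hy
    rw [← hG F] at hy
    induction hy using AddSubmonoid.closure_induction with
    | mem y hy =>
      rcases (y none).eq_zero_or_pos with e | e
      · simp [e, zero_of hF (hG F ▸ AddSubmonoid.subset_closure hy) e]
      · exact (div_le_iff₀ (by exact_mod_cast e)).1 (h2 ⟨F, y⟩ ⟨hF, .inr hy⟩)
    | zero => simp
    | add a b _ _ ha hb =>
      simp only [Pi.add_apply, sum_add_distrib] at *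
      push_cast at *
      linarith
  rintro r t ⟨X, _, τ, w, a, -, c, rfl, e⟩
  obtain ⟨N, N0, u, hu⟩ : ∃ N : ℕ, 0 < N ∧ ∃ u : X → ℕ, ∀ x, (u x : ℚ) = N * w x := by
    refine ⟨∏ x, (w x).den, prod_pos fun x _ => (w x).den_pos,
      fun x => (∏ y ∈ univ.erase x, (w y).den) * (w x).num.toNat, fun x => ?_⟩
    have : (((w x).num.toNat : ℕ) : ℚ) = (w x).den * w x := by
      rw [Rat.den_mul_eq_num, ← Int.cast_natCast, Int.toNat_of_nonneg (Rat.num_nonneg.2 (a x))]
    rw [← prod_erase_mul _ _ (mem_univ x), Nat.cast_mul, Nat.cast_mul, this, mul_assoc]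
  have l1 : ∀ i, ∑ T, (if i ∈ T then ∑ x with τ x = T, u x else 0) =
      ∑ x, if i ∈ τ x then u x else 0 := by
    intro i
    rw [← sum_fiberwise univ τ]
    refine sum_congr rfl fun T _ => ?_
    split_ifs with h
    · exact sum_congr rfl fun x hx => by rw [if_pos ((mem_filter.1 hx).2 ▸ h)]
    · exact (sum_eq_zero fun x hx => by rw [if_neg ((mem_filter.1 hx).2 ▸ h)]).symm
  have N1 : (0 : ℚ) < N := by exact_mod_cast N0
  have l2 : ∀ i, ∑ x, (if i ∈ τ x then u x else 0) ≤ N := by
    intro i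
    have := mul_le_mul_of_nonneg_left (e i) N1.le
    simp only [mul_sum, mul_ite, mul_zero, ← hu, mul_one] at this
    exact_mod_cast this
  have := key (univ.image τ) (by simpa [Int] using c) (fun o => o.elim N (Sum.elim
    (fun T => ∑ x with τ x = T, u x) fun i => N - ∑ x, if i ∈ τ x then u x else 0))
    ⟨fun T h => sum_eq_zero fun x hx => (h (mem_image.2 ⟨x, mem_univ _, (mem_filter.1 hx).2⟩)).elim,
      fun i => by have := l2 i; simp only [Option.elim, Sum.elim_inl, Sum.elim_inr, l1]; omega⟩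
  simp only [Option.elim, Sum.elim_inl, sum_fiberwise, Nat.cast_sum, hu, ← mul_sum] at this
  nlinarith

theorem improve {X : Type} [Fintype X] [DecidableEq X] (B : ι → Finset X) {k : ℕ} (k0 : 0 < k)
    (hk : ∀ i, (B i).card = k) (hc : ∀ x y, ∃ i, x ∈ B i ∧ y ∈ B i) (M : Finset ι)
    (h : Fintype.card ι * (M.biUnion B).card < M.card * Fintype.card X) :
    ∃ r t, (Fintype.card X : ℚ) / k < r ∧ P (univ : Finset ι) r t := by
  set D := M.biUnion B with hD
  have hm := card_le_univ M
  have hb := card_le_univ D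
  have hb1 : D.card < Fintype.card X := by
    by_contra e
    have := Nat.mul_le_mul hm (not_lt.1 e)
    omega
  obtain ⟨i0, hi0⟩ : M.Nonempty := card_pos.1 (by by_contra e; simp [not_lt.1 e |> Nat.le_zero.1] at h)
  have hb2 : k ≤ D.card := hk i0 ▸ card_le_card (subset_biUnion_of_mem B hi0)
  have out : ∀ x y, x ∉ D → ∃ i, i ∉ M ∧ x ∈ B i ∧ y ∈ B i := fun x y hx => by
    obtain ⟨i, h1, h2⟩ := hc x y
    exact ⟨i, fun e => hx (mem_biUnion.2 ⟨i, e, h1⟩), h1, h2⟩
  have cnt : Fintype.card X ^ 2 ≤ D.card ^ 2 + (Fintype.card ι - M.card) * k ^ 2 := by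
    have : (univ : Finset (X × X)) ⊆ D ×ˢ D ∪ Mᶜ.biUnion fun i => B i ×ˢ B i := by
      rintro ⟨x, y⟩ -
      simp only [mem_union, mem_product, mem_biUnion (s := Mᶜ), mem_compl]
      by_cases hx : x ∈ D
      · by_cases hy : y ∈ D
        · exact .inl ⟨hx, hy⟩
        · obtain ⟨i, a, b, c⟩ := out y x hy
          exact .inr ⟨i, a, c, b⟩
      · exact .inr (out x y hx)
    have h2 := (card_le_card this).trans ((card_union_le _ _).trans
      (Nat.add_le_add_left card_biUnion_le _))
    simpa [hk, card_compl, sq] using h2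
  have k1 : (0 : ℚ) < k := by exact_mod_cast k0
  obtain ⟨r, hr⟩ : ∃ r : ℚ, D.card = r * k := ⟨D.card / k, by field_simp⟩
  obtain ⟨a, ha⟩ : ∃ a : ℚ, Fintype.card X = (r + a) * k := ⟨Fintype.card X / k - r, by field_simp; ring⟩
  have r1 : 1 ≤ r := by
    have : (k : ℚ) ≤ D.card := by exact_mod_cast hb2
    nlinarith
  have a0 : 0 < a := by
    have : (D.card : ℚ) < Fintype.card X := by exact_mod_cast hb1
    nlinarith
  have m1 : 2 * r ^ 2 + r * a < M.card := by
    have e1 : ((Fintype.card X : ℚ)) ^ 2 ≤ D.card ^ 2 + (Fintype.card ι - M.card) * k ^ 2 := by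
      rw [← Nat.cast_sub hm]; exact_mod_cast cnt
    have e2 : (Fintype.card ι : ℚ) * D.card < M.card * Fintype.card X := by exact_mod_cast h
    rw [hr, ha] at e1 e2
    have e3 : (r + a) ^ 2 ≤ r ^ 2 + (Fintype.card ι - M.card) :=
      le_of_mul_le_mul_right (by linarith) (pow_pos k1 2)
    have e4 : (Fintype.card ι : ℚ) * r < M.card * (r + a) := lt_of_mul_lt_mul_right (by linarith) k1.le
    refine lt_of_mul_lt_mul_right ?_ a0.le
    nlinarith
  obtain ⟨s, t, rs, tr, Y, _, σ, w, w0, w1, w2, w3, w4⟩ := small M r1 (by nlinarith)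
  have s0 : 0 < s := by linarith
  set l : ι → ℚ := fun i => ∑ y, if i ∈ σ y then w y else 0 with hl
  have θ1 : r / s < 1 := (div_lt_one s0).2 rs
  have θ0 : 0 < r / s := by positivity
  have l1 : ∀ i, 1 - r / s ≤ 1 - r / s * l i := fun i => by have := w4 i; nlinarith
  set Q := ∑ i : M, (1 - r / s * l i) with hQ
  have Qa : a < Q := by
    have : ∑ i : M, l i ≤ t * s := by
      rw [sum_coe_sort M l, sum_comm, ← w3, mul_sum]
      refine sum_le_sum fun y _ => ?_
      rw [← sum_filter, sum_const, nsmul_eq_mul, filter_mem_eq_inter, inter_eq_right.2 (w1 y).1]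
      exact mul_le_mul_of_nonneg_right (by exact_mod_cast (w1 y).2) (w0 y)
    have e := mul_le_mul_of_nonneg_left this θ0.le
    rw [show r / s * (t * s) = t * r by field_simp] at e
    rw [hQ, sum_sub_distrib, ← mul_sum]
    simp only [sum_const, card_univ, Fintype.card_coe, nsmul_eq_mul]
    nlinarith
  have Q0 : 0 < Q := by linarith
  have aQ : a / Q < 1 := (div_lt_one Q0).2 Qa
  have u1 : ∑ y, w y / s = 1 := by rw [← sum_div, w3, div_self s0.ne']
  have u2 : ∑ i : M, (1 - r / s * l i) / Q = 1 := by rw [← sum_div, div_self Q0.ne']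
  refine ⟨Fintype.card X / k + (1 - a / Q) * (1 - r / s), Fintype.card ι,
    lt_add_of_pos_right _ (mul_pos (by linarith) (by linarith)), Option (X × Y × M), inferInstance,
    fun o => o.elim M fun p => (univ.filter fun i => i ∉ M ∧ p.1 ∈ B i) ∪
      if p.1 ∈ D then σ p.2.1 else {p.2.2.1},
    fun o => o.elim ((1 - a / Q) * (1 - r / s)) fun p =>
      1 / k * (w p.2.1 / s * ((1 - r / s * l p.2.2) / Q)), ?_,
    fun _ => ⟨subset_univ _, card_le_univ _⟩, ?_, ?_, fun i => ?_⟩
  · rintro (_ | p)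
    · exact (mul_pos (by linarith) (by linarith)).le
    · have := w0 p.2.1
      have : 0 ≤ 1 - r / s * l p.2.2 := by linarith [l1 p.2.2]
      simp only [Option.elim]
      positivity
  · have : ∀ p : X × Y × M, ∃ i ∈ M, i ∈ if p.1 ∈ D then σ p.2.1 else {p.2.2.1} := fun p => by
      split_ifs
      · obtain ⟨i, hi, -⟩ := w2 p.2.1 p.2.1
        exact ⟨i, (w1 _).1 hi, hi⟩
      · exact ⟨_, p.2.2.2, mem_singleton_self _⟩
    rintro (_ | p) (_ | q)
    · exact ⟨i0, hi0, hi0⟩
    · obtain ⟨i, h1, h2⟩ := this q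
      exact ⟨i, h1, mem_union_right _ h2⟩
    · obtain ⟨i, h1, h2⟩ := this p
      exact ⟨i, mem_union_right _ h2, h1⟩
    · by_cases hx : p.1 ∈ D
      · by_cases hy : q.1 ∈ D
        · obtain ⟨i, h1, h2⟩ := w2 p.2.1 q.2.1
          exact ⟨i, by simp [hx, h1], by simp [hy, h2]⟩
        · obtain ⟨i, h1, h2, h3⟩ := out q.1 p.1 hy
          exact ⟨i, by simp [h1, h3], by simp [h1, h2]⟩
      · obtain ⟨i, h1, h2, h3⟩ := out p.1 q.1 hx
        exact ⟨i, by simp [h1, h2], by simp [h1, h3]⟩
  · simp only [Fintype.sum_option, Option.elim, Fintype.sum_prod_type, ← mul_sum, u2, mul_one, u1,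
      sum_const, card_univ, nsmul_eq_mul]
    ring
  · simp only [Fintype.sum_option, Option.elim, Fintype.sum_prod_type, mem_union, mem_filter,
      mem_univ, true_and]
    by_cases hi : i ∈ M
    · have e1 : ∀ x : X, (∑ y, ∑ j : M, if (i ∉ M ∧ x ∈ B i) ∨ i ∈ (if x ∈ D then σ y else {j.1}) then
          1 / k * (w y / s * ((1 - r / s * l j) / Q)) else 0) =
          if x ∈ D then 1 / k * (l i / s) else 1 / k * ((1 - r / s * l i) / Q) := by
        intro x
        by_cases hx : x ∈ D
        · simp only [hi, hx, not_true, false_and, false_or, if_true, sum_ite_irrel, ← mul_sum, u2,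
            sum_const_zero, mul_one]
          simp only [hl, sum_div, mul_sum, ite_div, mul_ite, zero_div, mul_zero]
        · have h2 : ∀ j : M, i = j.1 ↔ ⟨i, hi⟩ = j := fun j => by simp [Subtype.ext_iff]
          simp only [hi, hx, not_true, false_and, false_or, if_false, mem_singleton, h2, sum_ite_eq,
            mem_univ, if_true, ← mul_sum, ← sum_mul, u1, one_mul]
      simp only [e1]
      simp only [hi, if_true, sum_ite, sum_const, nsmul_eq_mul, filter_mem_eq_inter, univ_inter,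
        filter_not, card_univ_sdiff, Nat.cast_sub hb, hr, ha]
      have := mul_le_mul_of_nonneg_left (l1 i) (show 0 ≤ 1 - a / Q by linarith)
      have e2 : r * k * (1 / k * (l i / s)) + ((r + a) * k - r * k) * (1 / k * ((1 - r / s * l i) / Q))
          = r / s * l i + a / Q * (1 - r / s * l i) := by field_simp; ring
      linarith
    · have : ∀ (x : X) (y : Y) (j : M), i ∉ if x ∈ D then σ y else {j.1} := fun x y j => by
        split_ifs
        · exact fun e => hi ((w1 y).1 e)
        · exact fun e => hi (mem_singleton.1 e ▸ j.2)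
      simp only [hi, this, or_false, not_false_iff, true_and, if_false, zero_add, sum_ite_irrel,
        ← mul_sum, u1, u2, mul_one, sum_const_zero]
      simp [hk, k1.ne']

end

theorem Cov.all {d v k : ℕ} {B : Fin d → Finset (Fin v)} (h : Cov d v k B) (hv : 2 ≤ v) (x y : Fin v) :
    ∃ i, x ∈ B i ∧ y ∈ B i := by
  by_cases e : x = y
  · have : Nontrivial (Fin v) := Fin.nontrivial_iff_two_le.2 hv
    obtain ⟨z, hz⟩ := exists_ne x
    obtain ⟨i, -, a⟩ := h.2 z x hz
    exact ⟨i, a, e ▸ a⟩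
  · exact h.2 x y e

theorem hall {d v : ℕ} (B : Fin d → Finset (Fin v))
    (h : ∀ M : Finset (Fin d), M.card * v ≤ d * (M.biUnion B).card) :
    ∃ U : Fin d → Finset (Fin v × Fin d), (∀ i, U i ⊆ B i ×ˢ univ ∧ (U i).card = v) ∧
      ∀ p, ∃! i, p ∈ U i := by
  obtain ⟨f, f1, f2⟩ := (all_card_le_biUnion_card_iff_exists_injective
    fun q : Fin d × Fin v => B q.1 ×ˢ (univ : Finset (Fin d))).1 fun s => by
      have a : s ⊆ s.image Prod.fst ×ˢ univ := fun q hq => by simpa using ⟨q.2, hq⟩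
      have b : (s.image Prod.fst).biUnion B ×ˢ (univ : Finset (Fin d)) ⊆
          s.biUnion fun q => B q.1 ×ˢ univ := fun p hp => by simpa using hp
      have := card_le_card a
      have := card_le_card b
      have := h (s.image Prod.fst)
      simp only [card_product, card_univ, Fintype.card_fin] at *
      nlinarith
  have f3 := (Fintype.bijective_iff_injective_and_card f).2 ⟨f1, by simp [mul_comm]⟩
  refine ⟨fun i => univ.image fun y => f (i, y), fun i => ⟨fun p hp => ?_, ?_⟩, fun p => ?_⟩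
  · obtain ⟨y, -, rfl⟩ := mem_image.1 hp
    exact f2 (i, y)
  · rw [card_image_of_injective _ fun a b e => by simpa using f1 e]; simp
  · obtain ⟨q, rfl⟩ := f3.2 p
    exact ⟨q.1, by simp, fun j hj => by
      obtain ⟨y, -, e⟩ := mem_image.1 hj
      rw [← f1 e]⟩

theorem result (d : ℕ) (hd : 3 ≤ d) : ∃ β : ℝ, 0 < β ∧
    (∃ v k, 2 ≤ v ∧ 2 ≤ k ∧ ∃ B, Cov d v k B ∧ Function.Injective B ∧ (k * d : ℝ) / v ≤ β) ∧
    ∀ v k, 2 ≤ v → 2 ≤ k → ∀ B, Cov d v k B → (k * d : ℝ) / v ≤ β →
      ∃ U : Fin d → Finset (Fin v × Fin d), (∀ i, U i ⊆ B i ×ˢ univ ∧ (U i).card = v) ∧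
        ∀ p, ∃! i, p ∈ U i := by
  obtain ⟨F, hF, z, hz, h⟩ := bound (ι := Fin d)
  obtain ⟨M, -, hM⟩ := exists_subset_card_eq (s := (univ : Finset (Fin d))) (n := 3) (by simpa)
  have h1 := h _ _ ((pairs 1 M hM).mono (subset_univ _))
  set V := ∑ T : Finset (Fin d), z (some (.inl T)) with hV
  set K := z none with hK
  have K0 : 0 < K := by
    by_contra e
    rw [Nat.le_zero.1 (not_lt.1 e)] at h1
    norm_num at h1
  have K1 : (0 : ℚ) < K := by exact_mod_cast K0
  have KV : K < V := by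
    have : (K : ℚ) < V := by rw [le_div_iff₀ K1] at h1; push_cast at h1 ⊢; linarith
    exact_mod_cast this
  have d0 : (0 : ℝ) < d := by exact_mod_cast (by omega : 0 < d)
  have K2 : (0 : ℝ) < K := by exact_mod_cast K0
  have V2 : (0 : ℝ) < V := by exact_mod_cast K0.trans KV
  refine ⟨K * d / V, by positivity, ?_, fun v k hv hk B hB hβ => hall B fun N => ?_⟩
  · have e := Fintype.equivFinOfCardEq (α := (Σ T : Finset (Fin d), Fin (z (some (.inl T)))) × Fin d)
      (n := V * d) (by simp [hV])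
    have c1 : ∀ i, ∃ u, univ.filter (fun x => i ∈ (e.symm x).1.1) ⊆ u ∧ u ⊆ univ ∧ u.card = K * d := by
      intro i
      refine exists_subsuperset_card_eq (subset_univ _) ?_ (by simpa using Nat.mul_le_mul_right d KV.le)
      rw [card_filter, e.symm.sum_comp fun p => if i ∈ p.1.1 then 1 else 0]
      have := hz.2 i
      refine le_trans (le_of_eq ?_) (Nat.mul_le_mul_right d (Nat.le.intro this))
      rw [Fintype.sum_prod_type, Fintype.sum_sigma, sum_mul]
      refine sum_congr rfl fun T _ => ?_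
      by_cases c : i ∈ T <;> simp [c]
    choose u u1 u2 u3 using c1
    have lt : K * d < V * d := Nat.mul_lt_mul_of_pos_right KV (by omega)
    have k2 : 2 ≤ K * d := by nlinarith
    obtain ⟨W, W1, W2, W3⟩ := exists_subsuperset_card_eq (s := univ.image u) (n := d)
      (t := powersetCard (K * d) univ) (fun b hb => by
        obtain ⟨i, -, rfl⟩ := mem_image.1 hb
        simp [u3]) (card_image_le.trans (by simp)) (by
      rw [card_powersetCard, card_univ, Fintype.card_fin]
      have := Nat.choose_le_choose (K * d) (Nat.succ_le_of_lt lt)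
      rw [Nat.choose_succ_self_right] at this
      nlinarith)
    have g := (W.equivFinOfCardEq W3).symm
    refine ⟨V * d, K * d, by omega, k2, fun i => g i, ⟨fun i => (mem_powersetCard.1 (W2 (g i).2)).2,
      fun x y _ => ?_⟩, Subtype.val_injective.comp g.injective, le_of_eq (by push_cast; field_simp)⟩
    have m : ∀ x, (e.symm x).1.1 ∈ F := fun x => by
      by_contra c
      have := hz.1 _ c
      have := (e.symm x).1.2.2
      omega
    obtain ⟨i, a, b⟩ := hF _ (m x) _ (m y)
    refine ⟨g.symm ⟨u i, W1 (mem_image_of_mem _ (mem_univ _))⟩, ?_⟩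
    simp only [Equiv.apply_symm_apply]
    exact ⟨u1 i (by simpa), u1 i (by simpa)⟩
  · by_contra c
    obtain ⟨r, t, a, b⟩ := improve B (by omega) hB.1 (hB.all hv) N (by simpa using c)
    have := a.trans_le (h r t b)
    have v0 : (0 : ℝ) < v := by exact_mod_cast (by omega : 0 < v)
    rw [Fintype.card_fin, div_lt_div_iff₀ (by exact_mod_cast (by omega : 0 < k)) K1] at this
    rw [div_le_div_iff₀ v0 V2] at hβ
    have : (v : ℝ) * K < V * k := by exact_mod_cast this
    nlinarith

end Pool.Agent.Results.MP_c6938d_co.Yes
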